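import Pool.Agent.Helper40.TWM.Stmts
import Pool.Agent.Helper98.TW.Basic
import Pool.Agent.Helper67.JZ.NRT

/-!
Row MSK: the masses in a factor are stationary positive definite kernels (towers, MP_7a8f48_an).
-/

open MeasureTheory Filter Topology Finset ProbabilityTheory
open scoped ComplexConjugate

namespace Pool.Agent.Helper89.TWR

open Pool.Agent.Helper98.TW (SA AM Sys IA Lm ST_CEC)
open Pool.Agent.Helper16.AZ (T E Op)
open Pool.Agent.Helper16.BZ (co Wk EE)
open Pool.Agent.Helper40.TWM (NC)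

section ker

variable {Ω : Type} [mΩ : MeasurableSpace Ω] [StandardBorelSpace Ω]

/-- the conditional distributions of `μ` given `C` -/
noncomputable def kr (μ : Measure Ω) [IsProbabilityMeasure μ] (C : SA Ω) (hC : Lm C) :
    Kernel Ω Ω where
  toFun x := condExpKernel μ C x
  measurable' := (condExpKernel μ C).measurable.mono hC le_rfl

theorem kr_apply (μ : Measure Ω) [IsProbabilityMeasure μ] (C : SA Ω) (hC : Lm C) (x : Ω) :
    kr μ C hC x = condExpKernel μ C x := rfl

instance kr_markov (μ : Measure Ω) [IsProbabilityMeasure μ] (C : SA Ω) (hC : Lm C) :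
    IsMarkovKernel (kr μ C hC) := ⟨fun x => by
  rw [kr_apply]
  infer_instance⟩

theorem kr_comp (μ : Measure Ω) [IsProbabilityMeasure μ] (C : SA Ω) (hC : Lm C) :
    (kr μ C hC) ∘ₘ μ = μ := by
  refine Measure.ext fun s hs => ?_
  have h1 := congrArg (fun ν : Measure Ω => ν s) (condExpKernel_comp_trim (μ := μ) (m := C) hC)
  have h2 : (condExpKernel μ C ∘ₘ μ.trim hC) s = ∫⁻ x, condExpKernel μ C x s ∂(μ.trim hC) :=
    Measure.bind_apply hs (condExpKernel μ C).measurable.aemeasurable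
  have h3 : ∫⁻ x, condExpKernel μ C x s ∂(μ.trim hC) = ∫⁻ x, condExpKernel μ C x s ∂μ :=
    lintegral_trim hC (measurable_condExpKernel hs)
  rw [Measure.bind_apply hs (kr μ C hC).measurable.aemeasurable]
  exact (h3.symm.trans h2.symm).trans h1

/-- the relatively independent joining of `μ` with itself over `C` -/
noncomputable def rj (μ : Measure Ω) [IsProbabilityMeasure μ] (C : SA Ω) (hC : Lm C) :
    Measure (Ω × Ω) := (kr μ C hC ×ₖ kr μ C hC) ∘ₘ μ

instance rj_prob (μ : Measure Ω) [IsProbabilityMeasure μ] (C : SA Ω) (hC : Lm C) :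
    IsProbabilityMeasure (rj μ C hC) := by
  unfold rj
  infer_instance

theorem rj_fst (μ : Measure Ω) [IsProbabilityMeasure μ] (C : SA Ω) (hC : Lm C) :
    MeasurePreserving Prod.fst (rj μ C hC) μ := by
  refine ⟨measurable_fst, ?_⟩
  unfold rj
  rw [Measure.map_comp _ _ measurable_fst, ← Kernel.fst_eq, Kernel.fst_prod, kr_comp]

theorem rj_snd (μ : Measure Ω) [IsProbabilityMeasure μ] (C : SA Ω) (hC : Lm C) :
    MeasurePreserving Prod.snd (rj μ C hC) μ := by
  refine ⟨measurable_snd, ?_⟩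
  unfold rj
  rw [Measure.map_comp _ _ measurable_snd, ← Kernel.snd_eq, Kernel.snd_prod, kr_comp]

theorem rj_int (μ : Measure Ω) [IsProbabilityMeasure μ] (C : SA Ω) (hC : Lm C) {g : Ω → ℂ}
    (hg : AEStronglyMeasurable g μ) {B : ℝ} (hB : ∀ x, ‖g x‖ ≤ B) :
    ∫ z, g z.1 * conj (g z.2) ∂(rj μ C hC) = ((∫ x, ‖(μ[g|C]) x‖ ^ 2 ∂μ : ℝ) : ℂ) := by
  have hi : Integrable g μ := Integrable.of_bound hg B (Eventually.of_forall hB)
  have h1 : Integrable (fun z : Ω × Ω => g z.1 * conj (g z.2)) (rj μ C hC) := by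
    refine Integrable.of_bound ((hg.comp_measurePreserving (rj_fst μ C hC)).mul
      (Complex.continuous_conj.comp_aestronglyMeasurable
        (hg.comp_measurePreserving (rj_snd μ C hC)))) (B * B) (Eventually.of_forall fun z => ?_)
    show ‖g z.1 * conj (g z.2)‖ ≤ B * B
    rw [norm_mul, RCLike.norm_conj]
    exact mul_le_mul (hB _) (hB _) (norm_nonneg _) ((norm_nonneg _).trans (hB z.1))
  have h2 : ∫ z, g z.1 * conj (g z.2) ∂(rj μ C hC) =
      ∫ x, ∫ z, g z.1 * conj (g z.2) ∂((kr μ C hC ×ₖ kr μ C hC) x) ∂μ := by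
    have h3 := Kernel.integral_comp (κ := Kernel.const Unit μ) (η := kr μ C hC ×ₖ kr μ C hC)
      (a := ()) (f := fun z : Ω × Ω => g z.1 * conj (g z.2)) h1
    exact h3
  rw [h2, ← integral_complex_ofReal]
  refine integral_congr_ae ?_
  filter_upwards [condExp_ae_eq_integral_condExpKernel (m := C) hC hi] with x hx
  rw [Kernel.prod_apply, integral_prod_mul (fun y => g y) (fun y => conj (g y)), integral_conj,
    Complex.mul_conj', kr_apply, hx, ← Complex.ofReal_pow]

end ker

theorem st_MSK (hCEC : ST_CEC) : Helper40.TWM.ST_MSK := by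
  intro Ω _ _ μ _ S S' C d φ c hS hC hφ hu hc hB
  obtain ⟨B, hB⟩ := hB
  have hSi : ∀ k, MeasurePreserving S^[k] μ μ := fun k => hS.mp.iterate k
  have hco : ∀ k, AEStronglyMeasurable (co S φ k) μ := by
    intro k
    induction k with
    | zero => exact aestronglyMeasurable_const
    | succ k ih => exact (hφ.comp_measurePreserving (hSi k)).mul ih
  have hW : ∀ k, AEStronglyMeasurable (Wk S φ k c) μ := by
    intro k
    have h1 : AEStronglyMeasurable (fun x => star (co S φ k x)) μ :=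
      (ContinuousLinearMap.adjoint : Op d ≃ₗᵢ⋆[ℂ] Op d).continuous.comp_aestronglyMeasurable
        (hco k)
    exact (isBoundedBilinearMap_apply (𝕜 := ℂ) (E := E d)
      (F := E d)).continuous.comp_aestronglyMeasurable
        (h1.prodMk (hc.comp_measurePreserving (hSi k)))
  have hWb : ∀ k x, ‖Wk S φ k c x‖ ≤ B := fun k x => by
    rw [Helper16.BZ.Wk_norm S φ c hu]
    exact hB _
  have hE : ∀ k k', AEStronglyMeasurable (EE S φ c k k') μ := fun k k' => (hW k).inner (hW k')
  have hEb : ∀ k k' x, ‖EE S φ c k k' x‖ ≤ B ^ 2 := fun k k' x =>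
    Helper16.BZ.EE_norm S φ c hu B hB k k' x
  refine ⟨?_, ?_⟩
  · obtain ⟨V, i1, i2, i3, w, hw⟩ := Pool.Agent.Helper67.JZ.gramF (Ω := Ω × Ω) (ι := Unit)
      (rj μ C hC.1) 1 (by norm_num)
      (fun _ k z => Wk S φ k c z.1) (fun _ k z => Wk S φ k c z.2) (fun _ => B)
      (fun _ k => (hW k).comp_measurePreserving (rj_fst μ C hC.1))
      (fun _ k => (hW k).comp_measurePreserving (rj_snd μ C hC.1))
      (fun _ k z => hWb k _) (fun _ k z => hWb k _)
    refine ⟨V, i1, i2, i3, w, fun k k' => ?_⟩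
    rw [hw k k', Finset.univ_unique, Finset.sum_singleton, Complex.ofReal_one, one_mul]
    exact rj_int μ C hC.1 (hE k k') (hEb k k')
  · intro k k'
    show ∫ x, ‖(μ[EE S φ c (k + 1) (k' + 1)|C]) x‖ ^ 2 ∂μ = ∫ x, ‖(μ[EE S φ c k k'|C]) x‖ ^ 2 ∂μ
    have h1 : EE S φ c (k + 1) (k' + 1) = fun x => EE S φ c k k' (S x) := by
      funext x
      exact Helper16.BZ.EE_shift S φ c hu k k' 1 x
    have hi : Integrable (EE S φ c k k') μ :=
      Integrable.of_bound (hE k k') (B ^ 2) (Eventually.of_forall (hEb k k'))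
    have h2 := hCEC Ω μ S S' C (EE S φ c k k') hS hC hi
    rw [h1]
    have h3 : ∫ x, ‖(μ[fun x => EE S φ c k k' (S x)|C]) x‖ ^ 2 ∂μ =
        ∫ x, ‖(μ[EE S φ c k k'|C]) (S x)‖ ^ 2 ∂μ := by
      refine integral_congr_ae ?_
      filter_upwards [h2] with x hx
      rw [hx]
    rw [h3]
    have h4 : AEStronglyMeasurable (fun x => ‖(μ[EE S φ c k k'|C]) x‖ ^ 2)
        (Measure.map S μ) := by
      rw [hS.mp.map_eq]
      exact (integrable_condExp.aestronglyMeasurable.norm).pow 2
    have h5 := integral_map hS.mp.measurable.aemeasurable h4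
    rw [hS.mp.map_eq] at h5
    exact h5.symm

end Pool.Agent.Helper89.TWR
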