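import Mathlib

/-!
The spectral part of a self adjoint operator above `s` (towers, MP_7a8f48_an).
-/

open Filter Topology

namespace Pool.Agent.Helper89.TWR

variable {H : Type} [NormedAddCommGroup H] [InnerProductSpace ℂ H] [CompleteSpace H]

theorem cfc_pos {Ψ : H →L[ℂ] H} (f : ℝ → ℝ) (hf : Continuous f)
    (h0 : ∀ t, 0 ≤ f t) (G : H) :
    0 ≤ RCLike.re (inner ℂ (cfc f Ψ G) G : ℂ) := by
  have h1 : cfc f Ψ = cfc (fun t => √(f t)) Ψ * cfc (fun t => √(f t)) Ψ := by
    rw [← cfc_mul (fun t => √(f t)) (fun t => √(f t)) Ψ (hf.sqrt.continuousOn)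
      (hf.sqrt.continuousOn)]
    exact congrArg (fun g => cfc g Ψ) (funext fun t => (Real.mul_self_sqrt (h0 t)).symm)
  have h2 : IsSelfAdjoint (cfc (fun t => √(f t)) Ψ) := cfc_predicate _ _
  have h3 : ContinuousLinearMap.adjoint (cfc (fun t => √(f t)) Ψ) = cfc (fun t => √(f t)) Ψ := h2
  rw [h1]
  show 0 ≤ RCLike.re (inner ℂ (cfc (fun t => √(f t)) Ψ (cfc (fun t => √(f t)) Ψ G)) G : ℂ)
  have h4 : (inner ℂ (cfc (fun t => √(f t)) Ψ (cfc (fun t => √(f t)) Ψ G)) G : ℂ) =
      inner ℂ (cfc (fun t => √(f t)) Ψ G) (cfc (fun t => √(f t)) Ψ G) := by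
    conv_lhs => rw [← h3]
    rw [ContinuousLinearMap.adjoint_inner_left, h3]
  rw [h4]
  exact inner_self_nonneg

theorem abs_part (Ψ : H →L[ℂ] H) (hs : IsSelfAdjoint Ψ) (s : ℝ) (s0 : 0 < s) :
    ∃ K : Submodule ℂ H, IsClosed (K : Set H) ∧
      (∀ W : H →L[ℂ] H, (∀ G, Ψ (W G) = W (Ψ G)) → ∀ G ∈ K, W G ∈ K) ∧
      (∀ G ∈ K, s * ‖G‖ ^ 2 ≤ RCLike.re (inner ℂ (Ψ G) G : ℂ)) ∧
      (∀ G, (∀ G' ∈ K, (inner ℂ G' G : ℂ) = 0) →
        RCLike.re (inner ℂ (Ψ G) G : ℂ) ≤ s * ‖G‖ ^ 2) ∧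
      ∀ K' : Submodule ℂ H, IsClosed (K' : Set H) → (∀ G, Ψ G ∈ K') → K ≤ K' := by
  classical
  -- the functions
  have cf : Continuous fun t : ℝ => max (t - s) 0 :=
    (continuous_id.sub continuous_const).max continuous_const
  have cn : Continuous fun t : ℝ => max (s - t) 0 :=
    (continuous_const.sub continuous_id).max continuous_const
  have cg : Continuous fun t : ℝ => max (t - s) 0 / max t s :=
    cf.div (continuous_id.max continuous_const) fun t => (lt_max_of_lt_right s0).ne'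
  set P : H →L[ℂ] H := cfc (fun t : ℝ => max (t - s) 0) Ψ with hP
  set N : H →L[ℂ] H := cfc (fun t : ℝ => max (s - t) 0) Ψ with hN
  set Q : H →L[ℂ] H := cfc (fun t : ℝ => max (t - s) 0 / max t s) Ψ with hQ
  have hid : cfc (fun t : ℝ => t) Ψ = Ψ := cfc_id' ℝ Ψ hs
  have hPQ : P = Ψ * Q := by
    conv_rhs => rw [← hid]
    rw [hQ, ← cfc_mul (fun t : ℝ => t) (fun t : ℝ => max (t - s) 0 / max t s) Ψ
      continuous_id.continuousOn cg.continuousOn, hP]
    refine congrArg (fun g => cfc g Ψ) (funext fun t => ?_)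
    rcases le_total s t with h | h
    · rw [max_eq_left h, max_eq_left (sub_nonneg.2 h)]
      field_simp [(lt_of_lt_of_le s0 h).ne']
    · rw [max_eq_right (sub_nonpos.2 h), zero_div, mul_zero]
  have hPP : (Ψ - (s : ℂ) • (1 : H →L[ℂ] H)) * P = P * P := by
    have e1 : Ψ - (s : ℂ) • (1 : H →L[ℂ] H) = cfc (fun t : ℝ => t - s) Ψ := by
      rw [cfc_sub (fun t : ℝ => t) (fun _ : ℝ => s) Ψ continuous_id.continuousOn
        continuous_const.continuousOn, hid, cfc_const s Ψ hs]
      congr 1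
    rw [e1, hP, ← cfc_mul (fun t : ℝ => t - s) (fun t : ℝ => max (t - s) 0) Ψ
      (continuous_id.sub continuous_const).continuousOn cf.continuousOn,
      ← cfc_mul (fun t : ℝ => max (t - s) 0) (fun t : ℝ => max (t - s) 0) Ψ
      cf.continuousOn cf.continuousOn]
    refine congrArg (fun g => cfc g Ψ) (funext fun t => ?_)
    rcases le_total s t with h | h
    · rw [max_eq_left (sub_nonneg.2 h)]
    · rw [max_eq_right (sub_nonpos.2 h), mul_zero, mul_zero]
  have hNP : Ψ - (s : ℂ) • (1 : H →L[ℂ] H) = P - N := by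
    have e1 : Ψ - (s : ℂ) • (1 : H →L[ℂ] H) = cfc (fun t : ℝ => t - s) Ψ := by
      rw [cfc_sub (fun t : ℝ => t) (fun _ : ℝ => s) Ψ continuous_id.continuousOn
        continuous_const.continuousOn, hid, cfc_const s Ψ hs]
      congr 1
    rw [e1, hP, hN, ← cfc_sub (fun t : ℝ => max (t - s) 0) (fun t : ℝ => max (s - t) 0) Ψ
      cf.continuousOn cn.continuousOn]
    refine congrArg (fun g => cfc g Ψ) (funext fun t => ?_)
    rcases le_total s t with h | h
    · rw [max_eq_left (sub_nonneg.2 h), max_eq_right (sub_nonpos.2 h), sub_zero]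
    · rw [max_eq_right (sub_nonpos.2 h), max_eq_left (sub_nonneg.2 h)]
      ring
  have hPs : IsSelfAdjoint P := cfc_predicate _ _
  have hPa : ContinuousLinearMap.adjoint P = P := hPs
  have hΨc : Commute Ψ P := by
    have h1 : Commute (cfc (fun t : ℝ => t) Ψ) P := cfc_commute_cfc _ _ Ψ
    rwa [hid] at h1
  -- the quadratic form
  have hq : ∀ G : H, RCLike.re (inner ℂ ((Ψ - (s : ℂ) • (1 : H →L[ℂ] H)) G) G : ℂ) =
      RCLike.re (inner ℂ (Ψ G) G : ℂ) - s * ‖G‖ ^ 2 := by
    intro G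
    have e : (Ψ - (s : ℂ) • (1 : H →L[ℂ] H)) G = Ψ G - (s : ℂ) • G := rfl
    rw [e, inner_sub_left, map_sub, inner_smul_left, inner_self_eq_norm_sq_to_K]
    congr 1
    rw [Complex.conj_ofReal]
    show ((s : ℂ) * ((‖G‖ : ℝ) : ℂ) ^ 2).re = s * ‖G‖ ^ 2
    rw [← Complex.ofReal_pow, ← Complex.ofReal_mul, Complex.ofReal_re]
  refine ⟨(LinearMap.range (P : H →ₗ[ℂ] H)).topologicalClosure,
    Submodule.isClosed_topologicalClosure _, ?_, ?_, ?_, ?_⟩
  · -- operators which commute with Ψ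
    intro W hW G hG
    have hc : Commute Ψ W := by
      show Ψ * W = W * Ψ
      ext G
      exact hW G
    have hc2 : Commute P W := hc.cfc_real _
    have hcl : ∀ G ∈ (LinearMap.range (P : H →ₗ[ℂ] H)).topologicalClosure,
        W G ∈ (LinearMap.range (P : H →ₗ[ℂ] H)).topologicalClosure := by
      intro G hG
      have h1 : (LinearMap.range (P : H →ₗ[ℂ] H)).topologicalClosure ≤
          ((LinearMap.range (P : H →ₗ[ℂ] H)).topologicalClosure).comap (W : H →ₗ[ℂ] H) := by
        refine Submodule.topologicalClosure_minimal _ ?_ ?_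
        · rintro _ ⟨G, rfl⟩
          refine Submodule.le_topologicalClosure _ ?_
          refine ⟨W G, ?_⟩
          exact congrArg (fun A : H →L[ℂ] H => A G) hc2
        · exact (Submodule.isClosed_topologicalClosure _).preimage W.continuous
      exact h1 hG
    exact hcl G hG
  · -- the form on K
    intro G hG
    have hset : (LinearMap.range (P : H →ₗ[ℂ] H)).topologicalClosure.carrier ⊆
        {G : H | s * ‖G‖ ^ 2 ≤ RCLike.re (inner ℂ (Ψ G) G : ℂ)} := by
      show closure _ ⊆ _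
      refine closure_minimal ?_ (isClosed_le (by fun_prop) (by fun_prop))
      rintro _ ⟨G, rfl⟩
      have h1 := hq (P G)
      have h2 : (Ψ - (s : ℂ) • (1 : H →L[ℂ] H)) (P G) = P (P G) :=
        congrArg (fun A : H →L[ℂ] H => A G) hPP
      rw [h2] at h1
      have h3 := cfc_pos (Ψ := Ψ) _ cf (fun t => le_max_right _ _) (P G)
      have h4 : 0 ≤ RCLike.re (inner ℂ (P (P G)) (P G) : ℂ) := h3
      rw [h1] at h4
      exact sub_nonneg.1 h4
    exact hset hG
  · -- the form on the complement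
    intro G hG
    have h1 : P G = 0 := by
      have h2 : (inner ℂ (P G) (P G) : ℂ) = 0 := by
        have h3 : (inner ℂ (P (P G)) G : ℂ) = 0 :=
          hG _ (Submodule.le_topologicalClosure _ ⟨P G, rfl⟩)
        have h4 : (inner ℂ (P (P G)) G : ℂ) = inner ℂ (P G) (P G) := by
          have h5 := ContinuousLinearMap.adjoint_inner_left P G (P G)
          rw [hPa] at h5
          exact h5
        rw [← h4]
        exact h3
      exact inner_self_eq_zero.1 h2
    have h2 := hq G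
    have h3 : (Ψ - (s : ℂ) • (1 : H →L[ℂ] H)) G = - N G := by
      have h4 : (Ψ - (s : ℂ) • (1 : H →L[ℂ] H)) G = P G - N G :=
        congrArg (fun A : H →L[ℂ] H => A G) hNP
      rw [h4, h1, zero_sub]
    rw [h3, inner_neg_left, map_neg] at h2
    have h5 := cfc_pos (Ψ := Ψ) _ cn (fun t => le_max_right _ _) G
    have h6 : 0 ≤ RCLike.re (inner ℂ (N G) G : ℂ) := h5
    linarith
  · intro K' hK' h
    refine Submodule.topologicalClosure_minimal _ ?_ hK'
    rintro _ ⟨G, rfl⟩
    have h1 : P G = Ψ (Q G) := congrArg (fun A : H →L[ℂ] H => A G) hPQ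
    show P G ∈ K'
    rw [h1]
    exact h _

end Pool.Agent.Helper89.TWR
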