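import Pool.Agent.Helper40.TWM.Stmts
import Pool.Agent.Helper98.TW.Basic
import Pool.Agent.Helper89.TWR.Abs

/-!
Rows PSE (sheet TW) and MPE (sheet TWM): the part of a positive operator above `s`
(towers, MP_7a8f48_an).
-/

open MeasureTheory Filter Topology Finset
open scoped ComplexConjugate

namespace Pool.Agent.Helper89.TWR

open Pool.Agent.Helper98.TW (SA AM Sys IA C0 CM ON Rk)
open Pool.Agent.Helper40.TWM (Th Cq)

section gen

variable {Ω : Type} [MeasurableSpace Ω] {μ : Measure Ω}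
variable {V : Type} [NormedAddCommGroup V] [InnerProductSpace ℂ V]

/-- multiplication by a bounded function -/
theorem exists_mul {c : Ω → ℂ} (hc : AEStronglyMeasurable c μ) {B : ℝ}
    (hB : ∀ᵐ x ∂μ, ‖c x‖ ≤ B) :
    ∃ M : Lp V 2 μ →L[ℂ] Lp V 2 μ, ∀ G : Lp V 2 μ, ∀ᵐ x ∂μ, (M G) x = c x • G x := by
  have hm : ∀ G : Lp V 2 μ, MemLp (fun x => c x • G x) 2 μ := fun G => by
    refine (Lp.memLp G).of_le_mul (c := B) (hc.smul (Lp.aestronglyMeasurable G)) ?_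
    filter_upwards [hB] with x hx
    rw [norm_smul]
    exact mul_le_mul_of_nonneg_right hx (norm_nonneg _)
  let L : Lp V 2 μ →ₗ[ℂ] Lp V 2 μ :=
    { toFun := fun G => (hm G).toLp _
      map_add' := fun G G' => by
        refine Lp.ext ?_
        filter_upwards [(hm (G + G')).coeFn_toLp, (hm G).coeFn_toLp, (hm G').coeFn_toLp,
          Lp.coeFn_add ((hm G).toLp _) ((hm G').toLp _), Lp.coeFn_add G G'] with x h1 h2 h3 h4 h5
        rw [h1, h4, h5, Pi.add_apply, Pi.add_apply, h2, h3, smul_add]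
      map_smul' := fun a G => by
        refine Lp.ext ?_
        filter_upwards [(hm (a • G)).coeFn_toLp, (hm G).coeFn_toLp,
          Lp.coeFn_smul a ((hm G).toLp _), Lp.coeFn_smul a G] with x h1 h2 h4 h5
        show ((hm (a • G)).toLp _ : Ω → V) x = (a • (hm G).toLp _ : Lp V 2 μ) x
        rw [h1, h4, h5, Pi.smul_apply, Pi.smul_apply, h2, smul_comm] }
  refine ⟨L.mkContinuous B fun G => ?_, fun G => ?_⟩
  · refine Lp.norm_le_mul_norm_of_ae_le_mul ?_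
    filter_upwards [(hm G).coeFn_toLp, hB] with x h1 h2
    show ‖((hm G).toLp _ : Ω → V) x‖ ≤ _
    rw [h1, norm_smul]
    exact mul_le_mul_of_nonneg_right h2 (norm_nonneg _)
  · exact (hm G).coeFn_toLp

/-- the operator `G ↦ θ (G ∘ R)` -/
theorem exists_W {θ : Ω → V →L[ℂ] V} {R : Ω → Ω} (hR : MeasurePreserving R μ μ)
    (hθ : AEStronglyMeasurable θ μ) (hn : ∀ x v, ‖θ x v‖ = ‖v‖) :
    ∃ W : Lp V 2 μ →L[ℂ] Lp V 2 μ, ∀ G : Lp V 2 μ, ∀ᵐ x ∂μ, (W G) x = θ x (G (R x)) := by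
  have ha : ∀ G : Lp V 2 μ, AEStronglyMeasurable (fun x => θ x (G (R x))) μ := fun G => by
    have h1 : AEStronglyMeasurable (fun x => G (R x)) μ :=
      (Lp.aestronglyMeasurable G).comp_measurePreserving hR
    exact (isBoundedBilinearMap_apply (𝕜 := ℂ) (E := V) (F := V)).continuous.comp_aestronglyMeasurable
      (hθ.prodMk h1)
  have he : ∀ G : Lp V 2 μ, eLpNorm (fun x => θ x (G (R x))) 2 μ = eLpNorm G 2 μ := fun G => by
    rw [← eLpNorm_comp_measurePreserving (Lp.aestronglyMeasurable G) hR]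
    exact eLpNorm_congr_norm_ae (Eventually.of_forall fun x => hn x _)
  have hm : ∀ G : Lp V 2 μ, MemLp (fun x => θ x (G (R x))) 2 μ := fun G =>
    ⟨ha G, by rw [he G]; exact (Lp.memLp G).2⟩
  let L : Lp V 2 μ →ₗ[ℂ] Lp V 2 μ :=
    { toFun := fun G => (hm G).toLp _
      map_add' := fun G G' => by
        refine Lp.ext ?_
        filter_upwards [(hm (G + G')).coeFn_toLp, (hm G).coeFn_toLp, (hm G').coeFn_toLp,
          Lp.coeFn_add ((hm G).toLp _) ((hm G').toLp _),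
          hR.quasiMeasurePreserving.ae (Lp.coeFn_add G G')] with x h1 h2 h3 h4 h5
        rw [h1, h4, h5, Pi.add_apply, Pi.add_apply, h2, h3, map_add]
      map_smul' := fun a G => by
        refine Lp.ext ?_
        filter_upwards [(hm (a • G)).coeFn_toLp, (hm G).coeFn_toLp,
          Lp.coeFn_smul a ((hm G).toLp _),
          hR.quasiMeasurePreserving.ae (Lp.coeFn_smul a G)] with x h1 h2 h4 h5
        show ((hm (a • G)).toLp _ : Ω → V) x = (a • (hm G).toLp _ : Lp V 2 μ) x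
        rw [h1, h4, h5, Pi.smul_apply, Pi.smul_apply, h2, map_smul] }
  refine ⟨L.mkContinuous 1 fun G => ?_, fun G => ?_⟩
  · show ‖(hm G).toLp _‖ ≤ 1 * ‖G‖
    rw [one_mul, Lp.norm_toLp, he G, Lp.norm_def]
  · exact (hm G).coeFn_toLp

theorem on_norm [IsProbabilityMeasure μ] {C : SA Ω} (hC : Helper98.TW.Lm C)
    {m : ℕ} {e : Fin m → Lp V 2 μ} (he : ON μ C e) (a : Fin m) : ‖e a‖ ^ 2 = 1 := by
  have h1 : (inner ℂ (e a) (e a) : ℂ) = 1 := by
    rw [L2.inner_def]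
    have h2 : ∫ x, (inner ℂ (e a x) (e a x) : ℂ) ∂μ =
        ∫ x, (μ[fun x => (inner ℂ (e a x) (e a x) : ℂ)|C]) x ∂μ := (integral_condExp hC).symm
    rw [h2, integral_congr_ae (he a a), if_pos rfl, integral_const, probReal_univ, one_smul]
  have h3 : ((‖e a‖ ^ 2 : ℝ) : ℂ) = 1 := by
    rw [← h1, inner_self_eq_norm_sq_to_K]
    exact Complex.ofReal_pow _ _
  exact_mod_cast h3

end gen

theorem part {Ω : Type} [MeasurableSpace Ω] {μ : Measure Ω} [IsProbabilityMeasure μ]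
    {V : Type} [NormedAddCommGroup V] [InnerProductSpace ℂ V] [FiniteDimensional ℂ V]
    {R : Ω → Ω} {θ : Ω → V →L[ℂ] V} {C : SA Ω} {Ψ : Lp V 2 μ →L[ℂ] Lp V 2 μ} {A s : ℝ}
    (hR : MeasurePreserving R μ μ) (hC : Helper98.TW.Lm C)
    (hθ : AEStronglyMeasurable θ μ) (hn : ∀ x v, ‖θ x v‖ = ‖v‖) (hs : IsSelfAdjoint Ψ)
    (h1 : ∀ (c : Ω → ℂ) (G G' : Lp V 2 μ), AM μ C c → (∃ B : ℝ, ∀ᵐ x ∂μ, ‖c x‖ ≤ B) →
      (∀ᵐ x ∂μ, G' x = c x • G x) → ∀ᵐ x ∂μ, (Ψ G') x = c x • (Ψ G) x)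
    (h2 : ∀ G G' : Lp V 2 μ, (∀ᵐ x ∂μ, G' x = θ x (G (R x))) →
      ∀ᵐ x ∂μ, (Ψ G') x = θ x ((Ψ G) (R x)))
    (h3 : ∀ (m : ℕ) (e : Fin m → Lp V 2 μ), ON μ C e →
      ∑ a, RCLike.re (inner ℂ (Ψ (e a)) (e a) : ℂ) ≤ A) (s0 : 0 < s) :
    ∃ K : Submodule ℂ (Lp V 2 μ), CM μ C R θ K ∧ (∀ n : ℕ, A / s < n + 1 → Rk μ C K n) ∧
    (∀ G ∈ K, Ψ G ∈ K) ∧ (∀ G ∈ K, s * ‖G‖ ^ 2 ≤ RCLike.re (inner ℂ (Ψ G) G : ℂ)) ∧
    (∀ G, (∀ G' ∈ K, (inner ℂ G' G : ℂ) = 0) →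
      RCLike.re (inner ℂ (Ψ G) G : ℂ) ≤ s * ‖G‖ ^ 2) ∧
    ∀ K' : Submodule ℂ (Lp V 2 μ), IsClosed (K' : Set (Lp V 2 μ)) → (∀ G, Ψ G ∈ K') →
      K ≤ K' := by
  obtain ⟨K, k0, k1, k2, k3, k4⟩ := abs_part Ψ hs s s0
  have kn : ∀ n : ℕ, A / s < n + 1 → Rk μ C K n := by
    intro n hn' m e he hon
    have h4 : (m : ℝ) * s ≤ A := by
      refine le_trans ?_ (h3 m e hon)
      have h5 : (m : ℝ) * s = ∑ _a : Fin m, s := by
        rw [Finset.sum_const, Finset.card_univ, Fintype.card_fin, nsmul_eq_mul]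
      rw [h5]
      refine Finset.sum_le_sum fun a _ => ?_
      have h6 := k2 (e a) (he a)
      rwa [on_norm hC hon a, mul_one] at h6
    have h7 : (m : ℝ) < n + 1 := lt_of_le_of_lt ((le_div_iff₀ s0).2 h4) hn'
    exact Nat.lt_succ_iff.1 (by exact_mod_cast h7)
  refine ⟨K, ⟨⟨k0, ?_⟩, ?_⟩, kn, ?_, k2, k3, k4⟩
  · intro G hG c hc hB G' hG'
    obtain ⟨B, hB'⟩ := hB
    have hc' : AEStronglyMeasurable c μ := AEStronglyMeasurable.mono hC hc
    obtain ⟨M, hM⟩ := exists_mul (V := V) hc' hB'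
    have e : G' = M G := Lp.ext (by
      filter_upwards [hG', hM G] with x h4 h5
      rw [h4, h5])
    rw [e]
    refine k1 M (fun G => Lp.ext ?_) G hG
    filter_upwards [h1 c G (M G) hc ⟨B, hB'⟩ (hM G), hM (Ψ G)] with x h4 h5
    rw [h4, h5]
  · intro G hG G' hG'
    obtain ⟨W, hW⟩ := exists_W (V := V) hR hθ hn
    have e : G' = W G := Lp.ext (by
      filter_upwards [hG', hW G] with x h4 h5
      rw [h4, h5])
    rw [e]
    refine k1 W (fun G => Lp.ext ?_) G hG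
    filter_upwards [h2 G (W G) (hW G), hW (Ψ G)] with x h4 h5
    rw [h4, h5]
  · exact k1 Ψ fun G => rfl

theorem st_PSE : Helper98.TW.ST_PSE := by
  intro Ω _ μ _ V _ _ _ R R' θ C Ψ A s hS _ hC hθ hn hs _ h1 h2 h3 s0
  obtain ⟨K, a, b, _, d, e, f⟩ := part hS.mp hC.1 hθ hn hs h1 h2 h3 s0
  exact ⟨K, a, b, d, e, f⟩

theorem st_MPE : Helper40.TWM.ST_MPE := by
  intro Ω _ μ _ V _ _ _ R R' θ C Ψ A s hS hC hθ hs _ hq h3 s0
  exact part hS.mp hC.1 hθ.ms hθ.iso hs hq.c hq.w h3 s0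

end Pool.Agent.Helper89.TWR
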